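import Pool.Agent.H95.Mini

set_option autoImplicit false
open MeasureTheory Pool.Agent.H95.MiniDefs

theorem Pool.Agent.Results.MP_becf51_an.AllN.result (N : ℕ) (hN : 2 ≤ N) :
    ∃ a : ℤ → ℂ, (∀ n, a (-n) = starRingEnd ℂ (a n)) ∧ toep N a ≠ 0 ∧
      ∃ C : ℝ, Real.pi / 2 * specNorm (toep N a) < C ∧
        ∀ f, IsSymbol N a f → ENNReal.ofReal C ≤ eLpNorm f ⊤ mT :=
  Pool.Agent.H95.Mini.main N hN
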